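import Mathlib

namespace Pool.Agent.Results.MP_0e3695_co.No
open Sum

/-- every vertex has at most half of its `G`-neighbours in its own part -/
def Maj {V : Type} (G : SimpleGraph V) (c : V → Fin 3) : Prop :=
  ∀ v, 2 * {u | G.Adj v u ∧ c u = c v}.ncard ≤ (G.neighborSet v).ncard

/-- gadget vertices -/
abbrev H (j : ℕ) := (Bool × Fin (2 * j)) ⊕ Fin 4

def tau4 : Fin 4 → Bool := ![true, true, false, false]

def g4 : Bool → Fin 4 → Fin 4 → Bool
  | true => ![![false, true, true, true], ![true, false, false, false],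
      ![true, false, false, false], ![true, false, false, false]]
  | false => ![![false, false, false, false], ![false, false, true, true],
      ![false, true, false, false], ![false, true, false, false]]

def tau {j : ℕ} : H j → Bool
  | inl p => p.1
  | inr a => tau4 a

def HA {j : ℕ} (s : Bool) : H j → H j → Prop
  | inl p, inl q => p.1 = s ∧ q.1 = s ∧ p.2 ≠ q.2
  | inl p, inr a => tau4 a = s ∧ p.1 ≠ s
  | inr a, inl p => tau4 a = s ∧ p.1 ≠ s
  | inr a, inr b => g4 s a b = true

abbrev S (m : ℕ) := {K : Finset (Fin (3 * m)) // K.card = m}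

abbrev V (m j : ℕ) := Fin (3 * m) ⊕ (S m × H j)

def A {m j : ℕ} (s : Bool) : V m j → V m j → Prop
  | inl _, inl _ => False
  | inl x, inr p => x ∈ p.1.1 ∧ tau p.2 ≠ s
  | inr p, inl x => x ∈ p.1.1 ∧ tau p.2 ≠ s
  | inr p, inr q => p.1 = q.1 ∧ HA s p.2 q.2

theorem g4_symm : ∀ s a b, g4 s a b = true → g4 s b a = true := by decide
theorem g4_irr : ∀ s a, ¬ g4 s a a = true := by decide
theorem g4_dis : ∀ a b, g4 false a b = true → g4 true a b = true → False := by decide

def G (m j : ℕ) (s : Bool) : SimpleGraph (V m j) where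
  Adj := A s
  symm := ⟨by
    rintro (x | ⟨K, p | a⟩) (y | ⟨K', q | b⟩) h <;> simp only [A, HA] at h ⊢ <;>
      first | exact h | exact ⟨h.1.symm, h.2⟩ | exact ⟨h.1.symm, g4_symm _ _ _ h.2⟩ |
        exact ⟨h.1.symm, h.2.2.1, h.2.1, h.2.2.2.symm⟩⟩
  loopless := ⟨by
    rintro (x | ⟨K, p | a⟩) h <;> simp only [A, HA] at h
    · exact h.2.2.2 rfl
    · exact g4_irr _ _ h.2⟩

theorem cnt {α β γ : Type} [Finite α] [Finite β] (f : α → γ) (g : β → γ)
    (hf : Function.Injective f) (hg : Function.Injective g) (hfg : ∀ a b, f a ≠ g b)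
    (P : γ → Prop) (hP : ∀ x, P x → (∃ a, f a = x) ∨ ∃ b, g b = x) :
    {x | P x}.ncard = {a | P (f a)}.ncard + {b | P (g b)}.ncard := by
  rw [← Set.ncard_image_of_injective _ hf, ← Set.ncard_image_of_injective _ hg,
    ← Set.ncard_union_eq]
  · congr 1
    ext x
    constructor
    · intro h
      rcases hP x h with ⟨a, rfl⟩ | ⟨b, rfl⟩
      · exact Or.inl ⟨a, h, rfl⟩
      · exact Or.inr ⟨b, h, rfl⟩
    · rintro (⟨a, h, rfl⟩ | ⟨b, h, rfl⟩) <;> exact h
  · rw [Set.disjoint_left]
    rintro x ⟨a, _, rfl⟩ ⟨b, _, h⟩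
    exact hfg _ _ h.symm

theorem cntV {m j : ℕ} (s : Bool) (K : S m) (h : H j) (Q : V m j → Prop) :
    {u | (G m j s).Adj (inr (K, h)) u ∧ Q u}.ncard =
      {x | (x ∈ K.1 ∧ tau h ≠ s) ∧ Q (inl x)}.ncard +
      ({i | HA s h (inl (!s, i)) ∧ Q (inr (K, inl (!s, i)))}.ncard +
       {i | HA s h (inl (s, i)) ∧ Q (inr (K, inl (s, i)))}.ncard +
       {a | HA s h (inr a) ∧ Q (inr (K, inr a))}.ncard) := by
  rw [cnt inl (fun h' => inr (K, h')) inl_injective (fun _ _ e => by simpa using e)
    (fun _ _ => by simp)]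
  · congr 1
    simp only [G, A, true_and]
    rw [cnt inl inr inl_injective inr_injective (fun _ _ => by simp) _
      (by rintro (p | a) _ <;> simp),
      cnt (fun i => (!s, i)) (fun i => (s, i)) (fun _ _ e => by simpa using e)
        (fun _ _ e => by simpa using e) (fun _ _ => by simp)]
    rintro ⟨t, i⟩ _
    cases t <;> cases s <;> simp
  · rintro (x | ⟨K', h'⟩) ⟨e, _⟩
    · simp
    · obtain rfl : K = K' := e.1
      simp

theorem fin4 : ∀ (a : Fin 3) (g : Fin 4 → Fin 3), (∀ w, g w ≠ a) →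
    (∀ w, 2 * (Finset.univ.filter fun b => g4 (tau4 w) w b = true ∧ g b = g w).card ≤
      (Finset.univ.filter fun b => g4 (tau4 w) w b = true).card) → False := by decide

theorem nb {m j : ℕ} (s : Bool) (v : V m j) :
    (G m j s).neighborSet v = {u | (G m j s).Adj v u ∧ True} := by
  ext u; simp

theorem nc4 (P : Fin 4 → Prop) [DecidablePred P] :
    {a | P a}.ncard = (Finset.univ.filter P).card := by
  rw [← Set.ncard_coe_finset]; simp

theorem deg {m j : ℕ} (s : Bool) (K : S m) (h : H j) :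
    (tau h ≠ s → m ≤ ((G m j s).neighborSet (inr (K, h))).ncard ∧
      ((G m j s).neighborSet (inr (K, h))).ncard ≤ m + 2) ∧
    (tau h = s → 2 * j ≤ ((G m j s).neighborSet (inr (K, h))).ncard + 1) := by
  rw [nb, cntV]
  have hK : {x | x ∈ K.1}.ncard = m := by simpa using K.2
  have hu : (Set.univ : Set (Fin (2 * j))).ncard = 2 * j := by simp
  rcases h with ⟨t, i⟩ | a
  · have hi : {i' : Fin (2 * j) | ¬ i = i'}.ncard + 1 = 2 * j := by
      have := Set.ncard_add_ncard_compl ({i} : Set (Fin (2 * j)))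
      simp only [Set.ncard_singleton, Nat.card_eq_fintype_card, Fintype.card_fin] at this
      have e : {i' : Fin (2 * j) | ¬ i = i'} = {i}ᶜ := by ext; simp [eq_comm]
      rw [e]; omega
    have h4 : ∀ s, {a | tau4 a = s}.ncard = 2 := by
      intro s; rw [nc4]; revert s; decide
    cases t <;> cases s <;> simp [HA, tau, hK, h4] <;> omega
  · have h4 : ∀ s a, tau4 a ≠ s → {b | g4 s a b = true}.ncard ≤ 2 := by
      intro s a; rw [nc4]; revert s a; decide
    constructor
    · intro h
      have := h4 s a h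
      simp only [tau] at h
      simp [HA, tau, hK, h]
      omega
    · intro h
      simp only [tau] at h
      simp [HA, tau, h]
      omega

theorem degL {m j : ℕ} (hm : 1 ≤ m) (s : Bool) (x : Fin (3 * m)) :
    2 * j ≤ ((G m j s).neighborSet (inl x)).ncard := by
  obtain ⟨K, hx, hK⟩ : ∃ K : Finset (Fin (3 * m)), x ∈ K ∧ K.card = m := by
    obtain ⟨K, h1, _, h2⟩ := Finset.exists_subsuperset_card_eq
      (Finset.subset_univ ({x} : Finset (Fin (3 * m)))) (n := m) (by simpa using hm)
      (by simp; omega)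
    exact ⟨K, h1 (Finset.mem_singleton_self x), h2⟩
  have := Set.ncard_le_ncard_of_injOn (s := (Set.univ : Set (Fin (2 * j))))
    (t := (G m j s).neighborSet (inl x)) (fun i => inr (⟨K, hK⟩, inl (!s, i)))
    (fun i _ => by simp [G, A, hx, tau]) (fun _ _ _ _ e => by simpa using e)
  simpa using this

theorem nomaj {m j : ℕ} (hm : 3 ≤ m) (c : V m j → Fin 3) (hc : ∀ s, Maj (G m j s) c) : False := by
  classical
  obtain ⟨a, ha⟩ := Fintype.exists_le_card_fiber_of_mul_le_card (fun x => c (inl x)) (n := m)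
    (by simp)
  obtain ⟨K0, hK0, hK⟩ := Finset.exists_subset_card_eq ha
  let K : S m := ⟨K0, hK⟩
  have hKa : ∀ x ∈ K0, c (inl x) = a := fun x hx => by simpa using hK0 hx
  have h1 : ∀ h, c (inr (K, h)) ≠ a := by
    intro h e
    have h2 := hc (!tau h) (inr (K, h))
    have h3 := ((deg (!tau h) K h).1 (by simp)).2
    rw [cntV] at h2
    have : {x | (x ∈ K.1 ∧ tau h ≠ !tau h) ∧ c (inl x) = c (inr (K, h))} = ↑K0 := by
      ext x
      simp only [Set.mem_ofPred_eq, K, Finset.mem_coe]
      exact ⟨fun h => h.1.1, fun hx => ⟨⟨hx, by simp⟩, (hKa x hx).trans e.symm⟩⟩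
    rw [this, Set.ncard_coe_finset] at h2
    omega
  let N : Bool → Fin 3 → ℕ := fun s b => {i | c (inr (K, inl (s, i))) = b}.ncard
  have hu : (Set.univ : Set (Fin (2 * j))).ncard = 2 * j := by simp
  have h2 : ∀ s b, N s b ≤ j := by
    intro s b
    by_contra hlt
    obtain ⟨i, hi⟩ := Set.nonempty_of_ncard_ne_zero (s := {i | c (inr (K, inl (s, i))) = b})
      (by simp only [N] at hlt; omega)
    have h2 := hc s (inr (K, inl (s, i)))
    rw [nb, cntV, cntV] at h2
    have e1 := Set.ncard_sdiff_singleton_add_one hi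
    have e2 := Set.ncard_sdiff_singleton_add_one (Set.mem_univ i)
    have hi' : c (inr (K, inl (s, i))) = b := hi
    simp [HA, tau, hi'] at h2
    have f1 : {i' | ¬i = i' ∧ c (inr (K, inl (s, i'))) = b} =
      {i | c (inr (K, inl (s, i))) = b} \ {i} := by ext; simp [eq_comm, and_comm]
    have f2 : {i' | ¬i = i'} = Set.univ \ {i} := by ext; simp [eq_comm]
    rw [f1, f2] at h2
    simp only [N] at hlt
    omega
  have h3 : ∀ s b, b ≠ a → N s b = j := by
    intro s b hb
    have t1 : ∑ b, N s b = 2 * j := by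
      have := Finset.card_eq_sum_card_fiberwise (f := fun i => c (inr (K, inl (s, i))))
        (s := Finset.univ) (t := Finset.univ) (by simp)
      simp only [Finset.card_univ, Fintype.card_fin] at this
      refine Eq.trans (Finset.sum_congr rfl fun b _ => ?_) this.symm
      simp only [N]
      rw [← Set.ncard_coe_finset]; simp
    have t2 : N s a = 0 := by simp [N, h1]
    have := h2 s 0
    have := h2 s 1
    have := h2 s 2
    rw [Fin.sum_univ_three] at t1
    fin_cases a <;> fin_cases b <;> simp at hb t2 ⊢ <;> omega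
  refine fin4 a (fun w => c (inr (K, inr w))) (fun w => h1 _) fun w => ?_
  have h4 := hc (tau4 w) (inr (K, inr w))
  rw [nb, cntV, cntV] at h4
  have h5 := h3 (!tau4 w) _ (h1 (inr w))
  simp only [N] at h5
  simp [HA, tau, h5] at h4
  rw [nc4, nc4] at h4
  omega

theorem result (k : ℕ) : ∃ (W : Type) (_ : Finite W) (R B : SimpleGraph W), Disjoint R B ∧
    (∀ v, k ≤ (R.neighborSet v).ncard ∧ k ≤ (B.neighborSet v).ncard) ∧
    ¬ ∃ c : W → Fin 3, Maj R c ∧ Maj B c := by
  have hd : ∀ s v, k ≤ ((G (k + 3) (k + 1) s).neighborSet v).ncard := by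
    rintro s (x | ⟨K, h⟩)
    · have := degL (j := k + 1) (by omega : 1 ≤ k + 3) s x
      omega
    · have := deg s K h
      by_cases e : tau h = s
      · have := this.2 e; omega
      · have := (this.1 e).1; omega
  refine ⟨V (k + 3) (k + 1), inferInstance, G _ _ false, G _ _ true, ?_,
    fun v => ⟨hd _ v, hd _ v⟩, fun ⟨c, h1, h2⟩ => nomaj (by omega) c ?_⟩
  · rw [SimpleGraph.disjoint_left]
    rintro (x | ⟨K, p | a⟩) (y | ⟨K', q | b⟩) h h' <;> simp only [G, A, HA, tau] at h h' <;>
      first | exact g4_dis _ _ h.2 h'.2 | simp_all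
  · rintro (_ | _) <;> assumption

end Pool.Agent.Results.MP_0e3695_co.No
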